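import Pool.Agent.H365Z.MLS.Heat

set_option autoImplicit false

namespace Pool.Agent.H365Z.MLS

open Finset

/-- transition matrix of the three state path -/
noncomputable def PP (ε : ℝ) : Matrix (Fin 3) (Fin 3) ℝ :=
  !![0, 1, 0; 1 / 2, 0, 1 / 2; 0, ε / (1 - 3 * ε), 1 - ε / (1 - 3 * ε)]

/-- its stationary distribution -/
noncomputable def pp (ε : ℝ) : Fin 3 → ℝ := ![ε, 2 * ε, 1 - 3 * ε]

section general
variable {Ω : Type} [Fintype Ω]

lemma ent_eq (π : Ω → ℝ) (hs : ∑ x, π x = 1) (f : Ω → ℝ) (s : ℝ) :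
    ∑ x, π x * (Real.exp (f x) * (f x - s) - Real.exp (f x) + Real.exp s) =
      ∑ x, π x * (Real.exp (f x) * f x) - (∑ x, π x * Real.exp (f x)) * s
        - (∑ x, π x * Real.exp (f x)) + Real.exp s := by
  have : Real.exp s = ∑ x, π x * Real.exp s := by rw [← Finset.sum_mul, hs, one_mul]
  conv_rhs => rw [this]
  rw [Finset.sum_mul, ← Finset.sum_sub_distrib, ← Finset.sum_sub_distrib, ← Finset.sum_add_distrib]
  exact Finset.sum_congr rfl fun x _ => by ring

lemma ent_exp (π : Ω → ℝ) (f : Ω → ℝ) :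
    ent π (fun x => Real.exp (f x)) = ∑ x, π x * (Real.exp (f x) * f x) -
      (∑ x, π x * Real.exp (f x)) * Real.log (∑ x, π x * Real.exp (f x)) := by
  simp [ent]

lemma ent_le (π : Ω → ℝ) (hs : ∑ x, π x = 1) (f : Ω → ℝ)
    (hm : 0 < ∑ x, π x * Real.exp (f x)) (s : ℝ) :
    ent π (fun x => Real.exp (f x)) ≤
      ∑ x, π x * (Real.exp (f x) * (f x - s) - Real.exp (f x) + Real.exp s) := by
  rw [ent_eq π hs, ent_exp]
  set m := ∑ x, π x * Real.exp (f x) with hmdef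
  have h1 : (s - Real.log m) + 1 ≤ Real.exp (s - Real.log m) := Real.add_one_le_exp _
  rw [Real.exp_sub, Real.exp_log hm, le_div_iff₀ hm] at h1
  nlinarith

lemma phi_nonneg (a s : ℝ) : 0 ≤ Real.exp a * (a - s) - Real.exp a + Real.exp s := by
  have h1 : (s - a) + 1 ≤ Real.exp (s - a) := Real.add_one_le_exp _
  rw [Real.exp_sub, le_div_iff₀ (Real.exp_pos a)] at h1
  nlinarith

lemma phi_pos (a s : ℝ) (h : a ≠ s) : 0 < Real.exp a * (a - s) - Real.exp a + Real.exp s := by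
  have h1 : (s - a) + 1 < Real.exp (s - a) := Real.add_one_lt_exp (sub_ne_zero.2 h.symm)
  rw [Real.exp_sub, lt_div_iff₀ (Real.exp_pos a)] at h1
  nlinarith

lemma phi_le (a s : ℝ) :
    Real.exp a * (a - s) - Real.exp a + Real.exp s ≤ (Real.exp a - Real.exp s) * (a - s) := by
  have := phi_nonneg s a
  nlinarith

lemma ent_pos (π : Ω → ℝ) (hp : ∀ x, 0 < π x) (hs : ∑ x, π x = 1) (f : Ω → ℝ)
    (hf : ∃ x y, f x ≠ f y) : 0 < ent π (fun x => Real.exp (f x)) := by
  obtain ⟨x, y, hxy⟩ := hf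
  have hm : 0 < ∑ x, π x * Real.exp (f x) :=
    Finset.sum_pos (fun z _ => mul_pos (hp z) (Real.exp_pos _)) ⟨x, Finset.mem_univ _⟩
  have h1 := ent_eq π hs f (Real.log (∑ x, π x * Real.exp (f x)))
  rw [Real.exp_log hm] at h1
  have h2 : ent π (fun x => Real.exp (f x)) =
      ∑ z, π z * (Real.exp (f z) * (f z - Real.log (∑ x, π x * Real.exp (f x))) -
        Real.exp (f z) + Real.exp (Real.log (∑ x, π x * Real.exp (f x)))) := by
    rw [Real.exp_log hm, h1, ent_exp]; ring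
  rw [h2]
  set s := Real.log (∑ x, π x * Real.exp (f x))
  have hex : ∃ z, f z ≠ s := by
    by_cases h : f x = s
    · exact ⟨y, fun h' => hxy (h.trans h'.symm)⟩
    · exact ⟨x, h⟩
  obtain ⟨z, hz⟩ := hex
  exact Finset.sum_pos' (fun w _ => mul_nonneg (hp w).le (phi_nonneg _ _))
    ⟨z, Finset.mem_univ _, mul_pos (hp z) (phi_pos _ _ hz)⟩

end general

section chain
variable {ε : ℝ}

lemma PP_nonneg (h0 : 0 < ε) (h1 : ε ≤ 1 / 128) : ∀ x y, 0 ≤ PP ε x y := by
  have h3 : 0 < 1 - 3 * ε := by linarith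
  have h4 : 0 ≤ ε / (1 - 3 * ε) := by positivity
  have h5 : ε / (1 - 3 * ε) ≤ 1 := by rw [div_le_one h3]; linarith
  intro x y
  fin_cases x <;> fin_cases y <;> simp [PP] <;> linarith

lemma PP_row (x : Fin 3) : ∑ y, PP ε x y = 1 := by
  fin_cases x <;> simp [PP, Fin.sum_univ_three]
  norm_num

lemma chain_ok (h0 : 0 < ε) (h1 : ε ≤ 1 / 128) : IsIrredReversible (PP ε) (pp ε) := by
  have h3 : 0 < 1 - 3 * ε := by linarith
  have h4 : 0 < ε / (1 - 3 * ε) := by positivity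
  have h5 : ε / (1 - 3 * ε) ≤ 1 := by rw [div_le_one h3]; linarith
  refine ⟨PP_nonneg h0 h1, PP_row, ?_, ?_, ?_, ?_⟩
  · intro x
    fin_cases x <;> simp [pp] <;> linarith
  · simp [pp, Fin.sum_univ_three]; ring
  · intro x y
    have h6 : (1 - 3 * ε) * (ε / (1 - 3 * ε)) = ε := mul_div_cancel₀ _ h3.ne'
    fin_cases x <;> fin_cases y <;> simp [PP, pp] <;> linarith
  · intro x y
    fin_cases x <;> fin_cases y
    · exact ⟨0, by simp⟩
    · exact ⟨1, by simp [PP]⟩
    · exact ⟨2, by simp [PP, pow_two, Matrix.mul_apply, Fin.sum_univ_three]⟩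
    · exact ⟨1, by simp [PP]⟩
    · exact ⟨0, by simp⟩
    · exact ⟨1, by simp [PP]⟩
    · exact ⟨2, by simp [PP, pow_two, Matrix.mul_apply, Fin.sum_univ_three]; exact h4⟩
    · exact ⟨1, by simp [PP]; exact h4⟩
    · exact ⟨0, by simp⟩

lemma dirichlet_eq (h1 : ε ≤ 1 / 128) (g f : Fin 3 → ℝ) :
    dirichlet (PP ε) (pp ε) g f =
      ε * ((g 0 - g 1) * (f 0 - f 1)) + ε * ((g 2 - g 1) * (f 2 - f 1)) := by
  have h3 : (1 - 3 * ε) ≠ 0 := by linarith
  have h6 : (1 - 3 * ε) * (ε / (1 - 3 * ε)) = ε := mul_div_cancel₀ _ h3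
  simp [dirichlet, PP, pp, Fin.sum_univ_three, Matrix.mulVec, dotProduct, Matrix.one_apply]
  linear_combination (g 2 * f 2 - g 1 * f 2) * h6

lemma ratio_ge (h0 : 0 < ε) (h1 : ε ≤ 1 / 128) (f : Fin 3 → ℝ) (hf : ∃ x y, f x ≠ f y) :
    ε ≤ dirichlet (PP ε) (pp ε) (fun x => Real.exp (f x)) f /
      ent (pp ε) (fun x => Real.exp (f x)) := by
  have hc := chain_ok h0 h1
  have hpos := ent_pos (pp ε) hc.pi_pos hc.pi_sum f hf
  have hm : 0 < ∑ x, pp ε x * Real.exp (f x) :=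
    Finset.sum_pos (fun z _ => mul_pos (hc.pi_pos z) (Real.exp_pos _)) ⟨0, Finset.mem_univ _⟩
  have h2 := ent_le (pp ε) hc.pi_sum f hm (f 1)
  rw [le_div_iff₀ hpos, dirichlet_eq h1]
  rw [Fin.sum_univ_three] at h2
  have e0 : pp ε 0 = ε := rfl
  have e1 : pp ε 1 = 2 * ε := rfl
  have e2 : pp ε 2 = 1 - 3 * ε := rfl
  rw [e0, e1, e2] at h2
  have a0 := phi_le (f 0) (f 1)
  have a2 := phi_le (f 2) (f 1)
  have b0 := phi_nonneg (f 0) (f 1)
  have b2 := phi_nonneg (f 2) (f 1)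
  have h3 : ent (pp ε) (fun x => Real.exp (f x)) ≤
      (Real.exp (f 0) - Real.exp (f 1)) * (f 0 - f 1) +
        (Real.exp (f 2) - Real.exp (f 1)) * (f 2 - f 1) := by
    have c0 : ε * (Real.exp (f 0) * (f 0 - f 1) - Real.exp (f 0) + Real.exp (f 1)) ≤
        (Real.exp (f 0) * (f 0 - f 1) - Real.exp (f 0) + Real.exp (f 1)) := by nlinarith
    have c2 : (1 - 3 * ε) * (Real.exp (f 2) * (f 2 - f 1) - Real.exp (f 2) + Real.exp (f 1)) ≤
        (Real.exp (f 2) * (f 2 - f 1) - Real.exp (f 2) + Real.exp (f 1)) := by nlinarith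
    have c1 : 2 * ε * (Real.exp (f 1) * (f 1 - f 1) - Real.exp (f 1) + Real.exp (f 1)) = 0 := by
      ring
    linarith
  nlinarith

lemma cMLS_bdd (h0 : 0 < ε) (h1 : ε ≤ 1 / 128) :
    ∀ r ∈ {r : ℝ | ∃ f : Fin 3 → ℝ, (∃ x y, f x ≠ f y) ∧
      r = dirichlet (PP ε) (pp ε) (fun x => Real.exp (f x)) f /
        ent (pp ε) (fun x => Real.exp (f x))}, ε ≤ r := by
  rintro r ⟨f, hf, rfl⟩
  exact ratio_ge h0 h1 f hf

lemma cMLS_pos (h0 : 0 < ε) (h1 : ε ≤ 1 / 128) : 0 < cMLS (PP ε) (pp ε) := by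
  refine lt_of_lt_of_le h0 (le_csInf ⟨_, ![0, 1, 0], ⟨0, 1, by simp⟩, rfl⟩ (cMLS_bdd h0 h1))

/-- the test function -/
lemma cMLS_le {L u : ℝ} (hu : 0 < u) (huL : u ≤ L) (hL : 128 ≤ L)
    (h1 : Real.exp (-L) ≤ 1 / 128) :
    cMLS (PP (Real.exp (-L))) (pp (Real.exp (-L))) ≤ 2 * (u + Real.exp (-u) * L) / L := by
  set ε := Real.exp (-L) with hε
  have h0 : 0 < ε := Real.exp_pos _
  have hc := chain_ok h0 h1
  have hf : ∃ x y, (![L, L - u, 0] : Fin 3 → ℝ) x ≠ (![L, L - u, 0] : Fin 3 → ℝ) y :=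
    ⟨0, 1, by simp; linarith⟩
  refine le_trans (csInf_le ⟨ε, cMLS_bdd h0 h1⟩ ⟨![L, L - u, 0], hf, rfl⟩) ?_
  have hpos := ent_pos (pp ε) hc.pi_pos hc.pi_sum _ hf
  have k1 : ε * Real.exp L = 1 := by rw [hε, ← Real.exp_add]; simp
  have k2 : ε * Real.exp (L - u) = Real.exp (-u) := by rw [hε, ← Real.exp_add]; congr 1; ring
  have k3 : Real.exp (-u) ≤ 1 := Real.exp_le_one_iff.2 (by linarith)
  have k4 : 0 < Real.exp (-u) := Real.exp_pos _
  have hD : dirichlet (PP ε) (pp ε) (fun x => Real.exp ((![L, L - u, 0] : Fin 3 → ℝ) x))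
      ![L, L - u, 0] ≤ u + Real.exp (-u) * L := by
    rw [dirichlet_eq h1]
    simp only [Matrix.cons_val_zero, Matrix.cons_val_one, Matrix.cons_val_two, Matrix.head_cons,
      Matrix.tail_cons, Real.exp_zero]
    have : ε * ((Real.exp L - Real.exp (L - u)) * (L - (L - u))) +
        ε * ((1 - Real.exp (L - u)) * (0 - (L - u))) =
        (ε * Real.exp L - ε * Real.exp (L - u)) * u + (ε * Real.exp (L - u) - ε) * (L - u) := by
      ring
    rw [this, k1, k2]
    nlinarith [mul_nonneg h0.le (sub_nonneg.2 huL), mul_pos k4 hu]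
  have hE : L / 2 ≤ ent (pp ε) (fun x => Real.exp ((![L, L - u, 0] : Fin 3 → ℝ) x)) := by
    rw [ent_exp]
    have m1 : ∑ x, pp ε x * Real.exp ((![L, L - u, 0] : Fin 3 → ℝ) x) =
        1 + 2 * Real.exp (-u) + (1 - 3 * ε) := by
      rw [Fin.sum_univ_three]
      simp only [pp, Matrix.cons_val_zero, Matrix.cons_val_one, Matrix.cons_val_two,
        Matrix.head_cons, Matrix.tail_cons, Real.exp_zero]
      rw [k1, mul_assoc, k2]; ring
    have m2 : ∑ x, pp ε x * (Real.exp ((![L, L - u, 0] : Fin 3 → ℝ) x) *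
        (![L, L - u, 0] : Fin 3 → ℝ) x) = L + 2 * Real.exp (-u) * (L - u) := by
      rw [Fin.sum_univ_three]
      simp only [pp, Matrix.cons_val_zero, Matrix.cons_val_one, Matrix.cons_val_two,
        Matrix.head_cons, Matrix.tail_cons, Real.exp_zero]
      rw [← mul_assoc, k1, ← mul_assoc, mul_assoc 2, k2]; ring
    rw [m1, m2]
    set m := 1 + 2 * Real.exp (-u) + (1 - 3 * ε) with hm
    have hm0 : 0 < m := by rw [hm]; linarith
    have hm4 : m ≤ 4 := by rw [hm]; linarith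
    have hl : Real.log m ≤ m - 1 := Real.log_le_sub_one_of_pos hm0
    have : m * Real.log m ≤ 12 := by nlinarith
    nlinarith [mul_nonneg k4.le (sub_nonneg.2 huL)]
  have hL0 : 0 < L := by linarith
  rw [div_le_div_iff₀ hpos hL0]
  have hn : 0 ≤ u + Real.exp (-u) * L := by positivity
  nlinarith [mul_le_mul_of_nonneg_left hE hn, mul_le_mul_of_nonneg_right hD hL0.le]

/-- the Lyapunov function -/
noncomputable def VV : Fin 3 → ℝ := ![4 / 3, 1, 0]

lemma lyap_PP (h0 : 0 < ε) (h1 : ε ≤ 1 / 128) (x : Fin 3) :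
    ∑ y, PP ε x y * VV y ≤ (3 / 4) * VV x + 2 * ε := by
  have h3 : 0 < 1 - 3 * ε := by linarith
  have h5 : ε / (1 - 3 * ε) ≤ 2 * ε := by rw [div_le_iff₀ h3]; nlinarith
  fin_cases x <;> simp [PP, VV, Fin.sum_univ_three] <;> linarith

lemma tau_mem {L u : ℝ} (hu : 0 ≤ u) (hL : 128 ≤ L) (ha : Real.exp (-u) * L ≤ 3 / 16)
    (x : Fin 3) :
    4 * u ∈ tauSet (PP (Real.exp (-L))) (pp (Real.exp (-L))) x := by
  set ε := Real.exp (-L) with hε
  have h0 : 0 < ε := Real.exp_pos _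
  have k1 : ε * Real.exp L = 1 := by rw [hε, ← Real.exp_add]; simp
  have hq : L ^ 2 / 2 ≤ Real.exp L := by
    have := Real.quadratic_le_exp_of_nonneg (x := L) (by linarith)
    linarith
  have hεL : ε * L ≤ 1 / 64 := by
    have h2 : ε * (L ^ 2 / 2) ≤ 1 := by nlinarith
    nlinarith
  have h1 : ε ≤ 1 / 128 := by nlinarith
  have hc := chain_ok h0 h1
  have ht : 0 ≤ 4 * u := by linarith
  refine ⟨ht, ?_⟩
  have hnn := heat_nonneg hc.nonneg ht x
  have hrow := heat_row_le hc.nonneg (fun x => (hc.row_sum x).le) ht x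
  have hV := heat_lyap' hc.nonneg (fun x => (hc.row_sum x).le) VV (2 * ε) (by positivity)
    (lyap_PP h0 h1) ht x
  have e : -(4 * u / 4) = -u := by ring
  rw [e] at hV
  rw [Fin.sum_univ_three] at hrow hV
  set μ := fun y => heat (PP ε) (4 * u) x y with hμ
  have hV' : μ 0 * (4 / 3) + μ 1 * 1 + μ 2 * 0 ≤ Real.exp (-u) * VV x + 4 * (2 * ε) := hV
  have hVx : VV x ≤ 4 / 3 := by fin_cases x <;> simp [VV] <;> norm_num
  have n0 : 0 ≤ μ 0 := hnn 0
  have n1 : 0 ≤ μ 1 := hnn 1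
  have n2 : 0 ≤ μ 2 := hnn 2
  have hrow' : μ 0 + μ 1 + μ 2 ≤ 1 := hrow
  have k4 : 0 < Real.exp (-u) := Real.exp_pos _
  have hs : μ 0 + μ 1 ≤ Real.exp (-u) * (4 / 3) + 8 * ε := by nlinarith
  have t0 := term_le n0 (by linarith) (hc.pi_pos 0)
  have t1 := term_le n1 (by linarith) (hc.pi_pos 1)
  have t2 := term_le n2 (by linarith) (hc.pi_pos 2)
  have l0 : -Real.log (pp ε 0) = L := by
    have : pp ε 0 = ε := rfl
    rw [this, hε, Real.log_exp]; ring
  have l1 : -Real.log (pp ε 1) ≤ L := by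
    have : pp ε 1 = 2 * ε := rfl
    rw [this]
    have := Real.log_le_log h0 (show ε ≤ 2 * ε by linarith)
    rw [hε, Real.log_exp] at this
    rw [hε]; linarith
  have l2 : -Real.log (pp ε 2) ≤ 1 / 8 := by
    have : pp ε 2 = 1 - 3 * ε := rfl
    rw [this, ← Real.log_inv]
    have h3 : 0 < 1 - 3 * ε := by linarith
    have := Real.log_le_sub_one_of_pos (inv_pos.2 h3)
    have h4 : (1 - 3 * ε)⁻¹ ≤ 9 / 8 := by
      rw [inv_le_comm₀ h3 (by norm_num)]; linarith
    linarith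
  unfold relEnt
  rw [Fin.sum_univ_three]
  have s0 : μ 0 * (-Real.log (pp ε 0)) = μ 0 * L := by rw [l0]
  have s1 : μ 1 * (-Real.log (pp ε 1)) ≤ μ 1 * L := mul_le_mul_of_nonneg_left l1 n1
  have s2 : μ 2 * (-Real.log (pp ε 2)) ≤ 1 / 8 := by nlinarith
  have s3 : (μ 0 + μ 1) * L ≤ (Real.exp (-u) * (4 / 3) + 8 * ε) * L :=
    mul_le_mul_of_nonneg_right hs (by linarith)
  change μ 0 * Real.log (μ 0 / pp ε 0) + μ 1 * Real.log (μ 1 / pp ε 1) +
    μ 2 * Real.log (μ 2 / pp ε 2) ≤ 1 / 2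
  nlinarith

lemma rho_mem {L u Cent : ℝ} (hC : 0 < Cent) (hu : 0 ≤ u) (hL : 128 ≤ L)
    (h1 : Real.exp (-L) ≤ 1 / 128)
    (ha : Real.exp (-u) * L ≤ 3 / 16) (hb : Real.exp (-u) * L ≤ 3 / 4 * Cent) (x : Fin 3) :
    4 * u ∈ rhoSet Cent (PP (Real.exp (-L))) (pp (Real.exp (-L))) x := by
  set ε := Real.exp (-L) with hε
  have h0 : 0 < ε := Real.exp_pos _
  have hc := chain_ok h0 h1
  have ht : 0 ≤ 4 * u := by linarith
  refine ⟨ht, fun A _ hA => ?_⟩
  unfold survival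
  split_ifs with hx
  · have h2 : (2 : Fin 3) ∉ A := by
      intro h
      have := Finset.single_le_sum (f := pp ε) (fun y _ => (hc.pi_pos y).le) h
      have e2 : pp ε 2 = 1 - 3 * ε := rfl
      linarith
    have q0 : ∀ a b, 0 ≤ killed (PP ε) A a b := by
      intro a b; unfold killed; split_ifs
      · exact hc.nonneg a b
      · exact le_rfl
    have qle : ∀ a b, killed (PP ε) A a b ≤ PP ε a b := by
      intro a b; unfold killed; split_ifs
      · exact le_rfl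
      · exact hc.nonneg a b
    have q1 : ∀ a, ∑ b, killed (PP ε) A a b ≤ 1 := fun a =>
      (Finset.sum_le_sum fun b _ => qle a b).trans (hc.row_sum a).le
    have V0 : ∀ y, 0 ≤ VV y := by intro y; fin_cases y <;> simp [VV]; norm_num
    have qV : ∀ a, ∑ b, killed (PP ε) A a b * VV b ≤ (3 / 4) * VV a + 0 := by
      intro a
      by_cases ha2 : a = 2
      · subst ha2
        simp [killed, h2, VV]
      · have : ∑ b, killed (PP ε) A a b * VV b ≤ ∑ b, PP ε a b * VV b :=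
          Finset.sum_le_sum fun b _ => mul_le_mul_of_nonneg_right (qle a b) (V0 b)
        refine this.trans ?_
        fin_cases a
        · simp [PP, VV, Fin.sum_univ_three]
        · simp [PP, VV, Fin.sum_univ_three]; norm_num
        · exact absurd rfl ha2
    have hV := heat_lyap' q0 q1 VV 0 le_rfl qV ht x
    have e : -(4 * u / 4) = -u := by ring
    rw [e] at hV
    have hVx : VV x ≤ 4 / 3 := by fin_cases x <;> simp [VV] <;> norm_num
    have k4 : 0 < Real.exp (-u) := Real.exp_pos _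
    have hsum : ∑ y ∈ A, heat (killed (PP ε) A) (4 * u) x y ≤
        ∑ y, heat (killed (PP ε) A) (4 * u) x y * VV y := by
      calc ∑ y ∈ A, heat (killed (PP ε) A) (4 * u) x y
          ≤ ∑ y ∈ A, heat (killed (PP ε) A) (4 * u) x y * VV y := by
            refine Finset.sum_le_sum fun y hy => ?_
            have hy1 : 1 ≤ VV y := by
              fin_cases y
              · simp [VV]; norm_num
              · simp [VV]
              · exact absurd hy h2
            nlinarith [heat_nonneg q0 ht x y]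
        _ ≤ _ := Finset.sum_le_sum_of_subset_of_nonneg (Finset.subset_univ _)
            fun y _ _ => mul_nonneg (heat_nonneg q0 ht x y) (V0 y)
    have hS : ∑ y ∈ A, heat (killed (PP ε) A) (4 * u) x y ≤ Real.exp (-u) * (4 / 3) := by
      nlinarith
    refine hS.trans (le_min ?_ (by nlinarith))
    have hlow : ε ≤ ∑ y ∈ A, pp ε y := by
      have := Finset.single_le_sum (f := pp ε) (fun y _ => (hc.pi_pos y).le) hx
      have hx' : ε ≤ pp ε x := by fin_cases x <;> simp [pp] <;> linarith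
      linarith
    have hlog1 : -L ≤ Real.log (∑ y ∈ A, pp ε y) := by
      have := Real.log_le_log h0 hlow
      rwa [hε, Real.log_exp] at this
    have hlog2 : Real.log (∑ y ∈ A, pp ε y) < 0 := Real.log_neg (by linarith) (by linarith)
    rw [abs_of_neg hlog2, le_div_iff₀ (by linarith)]
    nlinarith
  · exact le_min (by positivity) (by norm_num)

end chain

theorem main (Cent : ℝ) (hCent : 0 < Cent) (C : ℝ) :
    ∃ (P : Matrix (Fin 3) (Fin 3) ℝ) (π : Fin 3 → ℝ), IsIrredReversible P π ∧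
      (∀ x, (rhoSet Cent P π x).Nonempty) ∧ (∀ x, (tauSet P π x).Nonempty) ∧ 0 < cMLS P π ∧
      C * rhoEnt Cent P π < 1 / cMLS P π ∧ C * tauEnt P π < 1 / cMLS P π := by
  set a := min (3 / 16 : ℝ) (3 / 4 * Cent) with ha
  have a0 : 0 < a := lt_min (by norm_num) (by positivity)
  have a1 : a ≤ 3 / 16 := min_le_left _ _
  have a2 : a ≤ 3 / 4 * Cent := min_le_right _ _
  set u := (1000 + 100 * |C|) / a with hu
  have hC0 : 0 ≤ |C| := abs_nonneg C
  have hau : a * u = 1000 + 100 * |C| := by rw [hu]; field_simp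
  have hu1 : 1000 ≤ u := by
    by_contra h
    push Not at h
    nlinarith
  have hu0 : 0 < u := by linarith
  have hcube : u ^ 3 / 6 ≤ Real.exp u := by
    have := Real.pow_div_factorial_le_exp u hu0.le 3
    simpa [Nat.factorial] using this
  set L := a * Real.exp u with hL
  have hL1 : (1000 + 100 * |C|) * u ^ 2 / 6 ≤ L := by
    have : a * (u ^ 3 / 6) ≤ a * Real.exp u := mul_le_mul_of_nonneg_left hcube a0.le
    calc _ = a * (u ^ 3 / 6) := by rw [← hau]; ring
      _ ≤ _ := this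
  have hu2 : u ≤ u ^ 2 := by nlinarith
  have hCu : 0 ≤ |C| * u ^ 2 := by positivity
  have huL : u ≤ L := by nlinarith
  have hL128 : 128 ≤ L := by linarith
  have hmul : Real.exp (-u) * L = a := by
    rw [hL, mul_left_comm, ← Real.exp_add]; simp
  have h1 : Real.exp (-L) ≤ 1 / 128 := by
    have k1 : Real.exp (-L) * Real.exp L = 1 := by rw [← Real.exp_add]; simp
    have := Real.add_one_le_exp L
    have k2 := Real.exp_pos (-L)
    nlinarith
  have h0 : 0 < Real.exp (-L) := Real.exp_pos _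
  have hρ := rho_mem hCent hu0.le hL128 h1 (hmul ▸ a1) (hmul ▸ a2)
  have hτ := tau_mem hu0.le hL128 (hmul ▸ a1)
  have hpos := cMLS_pos h0 h1
  have hle := cMLS_le hu0 huL hL128 h1
  rw [hmul] at hle
  have key : ∀ s : ℝ, 0 ≤ s → s ≤ 4 * u →
      C * s < 1 / cMLS (PP (Real.exp (-L))) (pp (Real.exp (-L))) := by
    intro s s0 s1
    have b1 : C * s ≤ |C| * (4 * u) :=
      (mul_le_mul_of_nonneg_right (le_abs_self C) s0).trans (mul_le_mul_of_nonneg_left s1 hC0)
    refine lt_of_le_of_lt b1 ?_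
    rw [lt_div_iff₀ hpos]
    have b2 : |C| * (4 * u) * cMLS (PP (Real.exp (-L))) (pp (Real.exp (-L))) ≤
        |C| * (4 * u) * (2 * (u + a) / L) := mul_le_mul_of_nonneg_left hle (by positivity)
    refine lt_of_le_of_lt b2 ?_
    rw [← mul_div_assoc, div_lt_one (by linarith)]
    have b3 : |C| * (4 * u) * (2 * (u + a)) ≤ |C| * (4 * u) * (2 * (u + u)) :=
      mul_le_mul_of_nonneg_left (by linarith) (by positivity)
    nlinarith
  refine ⟨PP (Real.exp (-L)), pp (Real.exp (-L)), chain_ok h0 h1, fun x => ⟨_, hρ x⟩,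
    fun x => ⟨_, hτ x⟩, hpos, key _ ?_ ?_, key _ ?_ ?_⟩
  · exact Real.iSup_nonneg fun x => Real.sInf_nonneg fun t ht => ht.1
  · exact ciSup_le fun x => csInf_le ⟨0, fun t ht => ht.1⟩ (hρ x)
  · exact Real.iSup_nonneg fun x => Real.sInf_nonneg fun t ht => ht.1
  · exact ciSup_le fun x => csInf_le ⟨0, fun t ht => ht.1⟩ (hτ x)

end Pool.Agent.H365Z.MLS
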