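import Mathlib

/-!
Definitions for MP_bada7b_pr: modified log-Sobolev constant, entropy mixing time and entropy
hitting-time parameter of a finite reversible Markov chain run in continuous time.
-/

set_option autoImplicit false

namespace Pool.Agent.H365Z.MLS

variable {Ω : Type} [Fintype Ω] [DecidableEq Ω]

/-- `P` is an irreducible transition matrix on `Ω`, reversible with respect to the probability
vector `π` (which is then its stationary distribution). -/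
structure IsIrredReversible (P : Matrix Ω Ω ℝ) (π : Ω → ℝ) : Prop where
  nonneg : ∀ x y, 0 ≤ P x y
  row_sum : ∀ x, ∑ y, P x y = 1
  pi_pos : ∀ x, 0 < π x
  pi_sum : ∑ x, π x = 1
  reversible : ∀ x y, π x * P x y = π y * P y x
  irreducible : ∀ x y, ∃ n : ℕ, 0 < (P ^ n) x y

/-- The heat kernel `H_t = exp (-t (I - P))`; its row `x` is the law at time `t` from `x`. -/
noncomputable def heat (P : Matrix Ω Ω ℝ) (t : ℝ) : Matrix Ω Ω ℝ :=
  NormedSpace.exp ((-t) • (1 - P))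

/-- The Dirichlet form `⟨(I - P) f, g⟩_π`. -/
noncomputable def dirichlet (P : Matrix Ω Ω ℝ) (π : Ω → ℝ) (f g : Ω → ℝ) : ℝ :=
  ∑ x, π x * ((1 - P).mulVec f x * g x)

/-- `Ent_π (f) = E_π [f log f] - E_π [f] log E_π [f]`. -/
noncomputable def ent (π : Ω → ℝ) (f : Ω → ℝ) : ℝ :=
  ∑ x, π x * (f x * Real.log (f x)) - (∑ x, π x * f x) * Real.log (∑ x, π x * f x)

/-- The modified log-Sobolev constant: the infimum of `𝓔(e^f, f) / Ent_π (e^f)` over non-constant
`f`. -/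
noncomputable def cMLS (P : Matrix Ω Ω ℝ) (π : Ω → ℝ) : ℝ :=
  sInf {r : ℝ | ∃ f : Ω → ℝ, (∃ x y, f x ≠ f y) ∧
    r = dirichlet P π (fun x => Real.exp (f x)) f / ent π (fun x => Real.exp (f x))}

/-- Relative entropy `D(μ ‖ π) = ∑ μ(x) log (μ(x) / π(x))`. -/
noncomputable def relEnt (μ π : Ω → ℝ) : ℝ :=
  ∑ x, μ x * Real.log (μ x / π x)

/-- The times `t ≥ 0` with `D(Pr_x^t ‖ π) ≤ 1/2`. -/
def tauSet (P : Matrix Ω Ω ℝ) (π : Ω → ℝ) (x : Ω) : Set ℝ :=
  {t : ℝ | 0 ≤ t ∧ relEnt (fun y => heat P t x y) π ≤ 1 / 2}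

/-- The entropy mixing time `max_x inf {t : D(Pr_x^t ‖ π) ≤ 1/2}`. -/
noncomputable def tauEnt (P : Matrix Ω Ω ℝ) (π : Ω → ℝ) : ℝ :=
  ⨆ x, sInf (tauSet P π x)

/-- The transition matrix of the chain killed when it leaves `A`. -/
def killed (P : Matrix Ω Ω ℝ) (A : Finset Ω) : Matrix Ω Ω ℝ :=
  fun x y => if x ∈ A ∧ y ∈ A then P x y else 0

/-- `Pr_x [T_{Aᶜ} > t]`, the probability that the chain started at `x` stays in `A` during
`[0, t]`: the total mass at time `t` of the chain killed on leaving `A`. -/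
noncomputable def survival (P : Matrix Ω Ω ℝ) (A : Finset Ω) (t : ℝ) (x : Ω) : ℝ :=
  if x ∈ A then ∑ y ∈ A, heat (killed P A) t x y else 0

/-- `A` is connected: from every `a ∈ A` every `b ∈ A` is reached with positive probability before
leaving `A`. -/
def IsConnectedSet (P : Matrix Ω Ω ℝ) (A : Finset Ω) : Prop :=
  ∀ a ∈ A, ∀ b ∈ A, ∃ n : ℕ, 0 < (killed P A ^ n) a b

/-- The times `t ≥ 0` with `Pr_x [T_{Aᶜ} > t] ≤ min (C_ent / |log π(A)|, 99/100)` for every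
connected `A` with `π(A) ≤ 1/2`. -/
def rhoSet (Cent : ℝ) (P : Matrix Ω Ω ℝ) (π : Ω → ℝ) (x : Ω) : Set ℝ :=
  {t : ℝ | 0 ≤ t ∧ ∀ A : Finset Ω, IsConnectedSet P A → ∑ y ∈ A, π y ≤ 1 / 2 →
    survival P A t x ≤ min (Cent / |Real.log (∑ y ∈ A, π y)|) (99 / 100)}

/-- The entropy hitting-time parameter `ρ_ent = max_x ρ_{ent,x}` for the constant `C_ent`. -/
noncomputable def rhoEnt (Cent : ℝ) (P : Matrix Ω Ω ℝ) (π : Ω → ℝ) : ℝ :=
  ⨆ x, sInf (rhoSet Cent P π x)

end Pool.Agent.H365Z.MLS
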