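import Pool.Agent.H365Z.MLS.Defs

set_option autoImplicit false

namespace Pool.Agent.H365Z.MLS

open Finset

variable {Ω : Type} [Fintype Ω] [DecidableEq Ω]

set_option backward.isDefEq.respectTransparency false in
lemma exp_hasSum (A : Matrix Ω Ω ℝ) :
    HasSum (fun n : ℕ => ((n.factorial : ℝ)⁻¹) • A ^ n) (NormedSpace.exp A) :=
  open scoped Matrix.Norms.Operator in NormedSpace.exp_series_hasSum_exp' (𝕂 := ℝ) A

lemma heat_eq (Q : Matrix Ω Ω ℝ) (t : ℝ) :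
    heat Q t = Real.exp (-t) • NormedSpace.exp (t • Q) := by
  unfold heat
  have h1 : (-t) • (1 - Q) = Matrix.diagonal (fun _ : Ω => -t) + t • Q := by
    ext x y
    by_cases h : x = y
    · subst h; simp; ring
    · simp [h, Matrix.one_apply_ne h]
  have hc : Commute (Matrix.diagonal (fun _ : Ω => -t)) (t • Q) := by
    have : Matrix.diagonal (fun _ : Ω => -t) = (-t) • (1 : Matrix Ω Ω ℝ) := by
      ext x y
      by_cases h : x = y
      · subst h; simp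
      · simp [h, Matrix.one_apply_ne h]
    rw [this]
    exact ((Commute.one_left _).smul_left _)
  rw [h1, Matrix.exp_add_of_commute _ _ hc, Matrix.exp_diagonal]
  ext x y
  rw [Matrix.diagonal_mul]
  simp [Pi.coe_exp, Real.exp_eq_exp_ℝ]

lemma heat_hasSum (Q : Matrix Ω Ω ℝ) (t : ℝ) (x y : Ω) :
    HasSum (fun n : ℕ => (Real.exp (-t) * (t ^ n / n.factorial)) * (Q ^ n) x y) (heat Q t x y) := by
  have h := exp_hasSum (t • Q)
  have h2 := (Pi.hasSum.1 ((Pi.hasSum.1 h) x)) y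
  have h3 := h2.mul_left (Real.exp (-t))
  have e1 : (fun n : ℕ => (Real.exp (-t) * (t ^ n / n.factorial)) * (Q ^ n) x y) =
      fun i : ℕ => Real.exp (-t) * (((i.factorial : ℝ)⁻¹ • (t • Q) ^ i) x y) := by
    funext n
    rw [smul_pow]
    simp only [Matrix.smul_apply, smul_eq_mul]
    ring
  rw [heat_eq, e1]
  exact h3

lemma pow_nonneg' {Q : Matrix Ω Ω ℝ} (h0 : ∀ x y, 0 ≤ Q x y) (n : ℕ) :
    ∀ x y, 0 ≤ (Q ^ n) x y := by
  induction n with
  | zero =>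
    intro x y
    by_cases h : x = y
    · subst h; simp
    · simp [Matrix.one_apply_ne h]
  | succ n ih =>
    intro x y
    rw [pow_succ, Matrix.mul_apply]
    exact Finset.sum_nonneg fun z _ => mul_nonneg (ih x z) (h0 z y)

lemma pow_lyap {Q : Matrix Ω Ω ℝ} (h0 : ∀ x y, 0 ≤ Q x y) (V : Ω → ℝ) (lam K : ℝ)
    (hlam : 0 ≤ lam) (hK : 0 ≤ K) (κ : ℝ) (hκ : 0 ≤ κ) (hKκ : lam * K + κ ≤ K)
    (hV : ∀ x, ∑ y, Q x y * V y ≤ lam * V x + κ)
    (h1 : ∀ n : ℕ, κ = 0 ∨ ∀ x, ∑ y, (Q ^ n) x y ≤ 1) (n : ℕ) :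
    ∀ x, ∑ y, (Q ^ n) x y * V y ≤ lam ^ n * V x + K := by
  induction n with
  | zero =>
    intro x
    simp [Matrix.one_apply]
    exact hK
  | succ n ih =>
    intro x
    have e1 : ∑ y, (Q ^ (n + 1)) x y * V y = ∑ z, (Q ^ n) x z * ∑ y, Q z y * V y := by
      simp only [pow_succ, Matrix.mul_apply, Finset.sum_mul, Finset.mul_sum]
      rw [Finset.sum_comm]
      refine Finset.sum_congr rfl fun z _ => Finset.sum_congr rfl fun y _ => by ring
    have e2 : ∑ z, (Q ^ n) x z * ∑ y, Q z y * V y ≤ ∑ z, (Q ^ n) x z * (lam * V z + κ) :=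
      Finset.sum_le_sum fun z _ => mul_le_mul_of_nonneg_left (hV z) (pow_nonneg' h0 n x z)
    have e3 : ∑ z, (Q ^ n) x z * (lam * V z + κ) =
        lam * (∑ z, (Q ^ n) x z * V z) + κ * ∑ z, (Q ^ n) x z := by
      simp only [Finset.mul_sum, ← Finset.sum_add_distrib]
      refine Finset.sum_congr rfl fun z _ => by ring
    have e4 : κ * ∑ z, (Q ^ n) x z ≤ κ := by
      rcases h1 n with h | h
      · simp [h]
      · nlinarith [h x]
    have e5 := mul_le_mul_of_nonneg_left (ih x) hlam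
    rw [e1, pow_succ]
    nlinarith

lemma pow_row_le {Q : Matrix Ω Ω ℝ} (h0 : ∀ x y, 0 ≤ Q x y) (h1 : ∀ x, ∑ y, Q x y ≤ 1) (n : ℕ) :
    ∀ x, ∑ y, (Q ^ n) x y ≤ 1 := by
  have := pow_lyap h0 (fun _ => 1) 1 0 zero_le_one le_rfl 0 le_rfl (by norm_num)
    (by simpa using h1) (fun _ => Or.inl rfl) n
  simpa using this

lemma weight_hasSum (t lam : ℝ) :
    HasSum (fun n : ℕ => (Real.exp (-t) * (t ^ n / n.factorial)) * lam ^ n)
      (Real.exp (-((1 - lam) * t))) := by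
  have h := (NormedSpace.expSeries_div_hasSum_exp (t * lam)).mul_left (Real.exp (-t))
  rw [← Real.exp_eq_exp_ℝ, ← Real.exp_add] at h
  have e1 : (fun n : ℕ => (Real.exp (-t) * (t ^ n / n.factorial)) * lam ^ n) =
      fun i : ℕ => Real.exp (-t) * ((t * lam) ^ i / i.factorial) := by
    funext n; rw [mul_pow]; ring
  have e2 : -((1 - lam) * t) = -t + t * lam := by ring
  rw [e1, e2]
  exact h

lemma heat_nonneg {Q : Matrix Ω Ω ℝ} (h0 : ∀ x y, 0 ≤ Q x y) {t : ℝ} (ht : 0 ≤ t) (x y : Ω) :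
    0 ≤ heat Q t x y :=
  (heat_hasSum Q t x y).nonneg fun n =>
    mul_nonneg (by positivity) (pow_nonneg' h0 n x y)

lemma heat_lyap {Q : Matrix Ω Ω ℝ} (V : Ω → ℝ) (lam K : ℝ) {t : ℝ} (ht : 0 ≤ t) (x : Ω)
    (h : ∀ n : ℕ, ∑ y, (Q ^ n) x y * V y ≤ lam ^ n * V x + K) :
    ∑ y, heat Q t x y * V y ≤ Real.exp (-((1 - lam) * t)) * V x + K := by
  have h1 : HasSum (fun n : ℕ => ∑ y, ((Real.exp (-t) * (t ^ n / n.factorial)) * (Q ^ n) x y) * V y)
      (∑ y, heat Q t x y * V y) :=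
    hasSum_sum fun y _ => (heat_hasSum Q t x y).mul_right (V y)
  have h2 := ((weight_hasSum t lam).mul_right (V x)).add ((weight_hasSum t 1).mul_right K)
  have h3 : Real.exp (-((1 - 1) * t)) * K = K := by simp
  rw [h3] at h2
  refine hasSum_le (fun n => ?_) h1 h2
  have hw : 0 ≤ Real.exp (-t) * (t ^ n / n.factorial) := by positivity
  have := mul_le_mul_of_nonneg_left (h n) hw
  rw [Finset.mul_sum] at this
  calc _ = ∑ y, Real.exp (-t) * (t ^ n / n.factorial) * ((Q ^ n) x y * V y) :=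
        Finset.sum_congr rfl fun y _ => by ring
    _ ≤ _ := this
    _ = _ := by ring

lemma heat_row_le {Q : Matrix Ω Ω ℝ} (h0 : ∀ x y, 0 ≤ Q x y) (h1 : ∀ x, ∑ y, Q x y ≤ 1)
    {t : ℝ} (ht : 0 ≤ t) (x : Ω) : ∑ y, heat Q t x y ≤ 1 := by
  have := heat_lyap (Q := Q) (fun _ => 1) 1 0 ht x (fun n => by simpa using pow_row_le h0 h1 n x)
  simpa using this

lemma heat_lyap' {Q : Matrix Ω Ω ℝ} (h0 : ∀ x y, 0 ≤ Q x y) (h1 : ∀ x, ∑ y, Q x y ≤ 1)
    (V : Ω → ℝ) (κ : ℝ) (hκ : 0 ≤ κ) (hV : ∀ x, ∑ y, Q x y * V y ≤ (3 / 4) * V x + κ)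
    {t : ℝ} (ht : 0 ≤ t) (x : Ω) :
    ∑ y, heat Q t x y * V y ≤ Real.exp (-(t / 4)) * V x + 4 * κ := by
  have := heat_lyap (Q := Q) V (3 / 4) (4 * κ) ht x (fun n =>
    pow_lyap h0 V (3 / 4) (4 * κ) (by norm_num) (by positivity) κ hκ (by linarith) hV
      (fun n => Or.inr (pow_row_le h0 h1 n)) n x)
  have e : -((1 - 3 / 4 : ℝ) * t) = -(t / 4) := by ring
  rwa [e] at this

lemma term_le {m p : ℝ} (h0 : 0 ≤ m) (h1 : m ≤ 1) (hp : 0 < p) :
    m * Real.log (m / p) ≤ m * (-Real.log p) := by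
  rcases h0.eq_or_lt with h | h
  · subst h; simp
  · rw [Real.log_div h.ne' hp.ne']
    have := Real.log_nonpos h0 h1
    nlinarith

end Pool.Agent.H365Z.MLS
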